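import Mathlib

/-!
# Full limiting sequences of a bounded real sequence
-/

set_option autoImplicit false

open Set Filter Topology

namespace Pool.Agent.Q188.DE

/-- one-sided version: a backward limiting sequence attaining the upper limit -/
lemma upper {x : ℕ → ℝ} {a b : ℝ} (hx : ∀ n, x n ∈ Icc a b) :
    ∃ (S : ℝ) (y : ℕ → ℝ) (φ : ℕ → ℕ), Tendsto φ atTop atTop ∧
      (∀ j, Tendsto (fun k => x (φ k - j)) atTop (𝓝 (y j))) ∧ y 0 = S ∧
      (∀ ε : ℝ, 0 < ε → ∀ᶠ n in atTop, x n < S + ε) := by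
  have hbdd : IsBoundedUnder (· ≤ ·) atTop x :=
    isBoundedUnder_of ⟨b, fun n => (hx n).2⟩
  have hcob : IsCoboundedUnder (· ≤ ·) atTop x :=
    (isBoundedUnder_of ⟨a, fun n => (hx n).1⟩ : IsBoundedUnder (· ≥ ·) atTop x).isCoboundedUnder_flip
  set S := limsup x atTop with hS
  have h1 : ∀ ε : ℝ, 0 < ε → ∀ᶠ n in atTop, x n < S + ε := fun ε hε =>
    eventually_lt_of_limsup_lt (by linarith) hbdd
  have h2 : ∀ k : ℕ, ∃ n, k ≤ n ∧ S - 1 / ((k : ℝ) + 1) < x n := by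
    intro k
    have h3 : ∃ᶠ n in atTop, S - 1 / ((k : ℝ) + 1) < x n := by
      refine frequently_lt_of_lt_limsup hcob ?_
      have : (0 : ℝ) < 1 / ((k : ℝ) + 1) := by positivity
      linarith
    obtain ⟨n, hn, hn'⟩ := (frequently_atTop.1 h3) k
    exact ⟨n, hn, hn'⟩
  choose φ₀ hφ₀ hφ₀' using h2
  have hcomp : IsCompact (Set.pi univ fun _ : ℕ => Icc a b) :=
    isCompact_univ_pi fun _ => isCompact_Icc
  obtain ⟨y, -, ψ, hψ, hlim⟩ := hcomp.tendsto_subseq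
    (x := fun k => fun j => x (φ₀ k - j)) (fun k j _ => hx _)
  have hφ₀t : Tendsto φ₀ atTop atTop := tendsto_atTop_mono hφ₀ tendsto_id
  have hφt : Tendsto (φ₀ ∘ ψ) atTop atTop := hφ₀t.comp hψ.tendsto_atTop
  have hcoord : ∀ j, Tendsto (fun k => x ((φ₀ ∘ ψ) k - j)) atTop (𝓝 (y j)) := fun j =>
    ((continuous_apply j).tendsto y).comp hlim
  refine ⟨S, y, φ₀ ∘ ψ, hφt, hcoord, ?_, h1⟩
  have h0 := hcoord 0
  simp only [Nat.sub_zero] at h0
  apply le_antisymm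
  · refine le_of_forall_pos_le_add fun ε hε => ?_
    exact le_of_tendsto h0 ((hφt.eventually (h1 ε hε)).mono fun k hk => hk.le)
  · have h4 : Tendsto (fun k => S - 1 / (((ψ k : ℕ) : ℝ) + 1)) atTop (𝓝 S) := by
      have := (tendsto_one_div_add_atTop_nhds_zero_nat (𝕜 := ℝ)).comp hψ.tendsto_atTop
      have h5 := (tendsto_const_nhds (x := S) (f := atTop (α := ℕ))).sub this
      rw [sub_zero] at h5
      exact h5
    exact le_of_tendsto_of_tendsto' h4 h0 fun k => (hφ₀' (ψ k)).le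

/-- full limiting sequences attaining the upper and the lower limit -/
lemma full {x : ℕ → ℝ} {a b : ℝ} (hx : ∀ n, x n ∈ Icc a b) :
    ∃ (S I : ℝ) (y z : ℕ → ℝ) (φ ψ : ℕ → ℕ), Tendsto φ atTop atTop ∧ Tendsto ψ atTop atTop ∧
      (∀ j, Tendsto (fun k => x (φ k - j)) atTop (𝓝 (y j))) ∧
      (∀ j, Tendsto (fun k => x (ψ k - j)) atTop (𝓝 (z j))) ∧ y 0 = S ∧ z 0 = I ∧
      (∀ j, I ≤ y j ∧ y j ≤ S) ∧ (∀ j, I ≤ z j ∧ z j ≤ S) ∧
      (I = S → Tendsto x atTop (𝓝 S)) := by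
  obtain ⟨S, y, φ, hφ, hy, hy0, hS⟩ := upper hx
  obtain ⟨I', z', ψ, hψ, hz, hz0, hI⟩ := upper (x := fun n => -x n) (a := -b) (b := -a)
    (fun n => ⟨by linarith [(hx n).2], by linarith [(hx n).1]⟩)
  have hlow : ∀ ε : ℝ, 0 < ε → ∀ᶠ n in atTop, -I' - ε < x n := fun ε hε =>
    (hI ε hε).mono fun n hn => by linarith
  have hsub : ∀ {θ : ℕ → ℕ}, Tendsto θ atTop atTop → ∀ j, Tendsto (fun k => θ k - j) atTop atTop :=
    fun hθ j => (tendsto_sub_atTop_nat j).comp hθ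
  have hle : ∀ {θ : ℕ → ℕ} {w : ℕ → ℝ}, Tendsto θ atTop atTop →
      (∀ j, Tendsto (fun k => x (θ k - j)) atTop (𝓝 (w j))) → ∀ j, -I' ≤ w j ∧ w j ≤ S := by
    intro θ w hθ hw j
    constructor
    · refine le_of_forall_pos_sub_le fun ε hε => ?_
      exact ge_of_tendsto (hw j) (((hsub hθ j).eventually (hlow ε hε)).mono fun k hk => hk.le)
    · refine le_of_forall_pos_le_add fun ε hε => ?_
      exact le_of_tendsto (hw j) (((hsub hθ j).eventually (hS ε hε)).mono fun k hk => hk.le)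
  have hz' : ∀ j, Tendsto (fun k => x (ψ k - j)) atTop (𝓝 (-z' j)) := fun j => by
    have := (hz j).neg
    simpa using this
  refine ⟨S, -I', y, fun j => -z' j, φ, ψ, hφ, hψ, hy, hz', hy0, by simp only [hz0],
    hle hφ hy, hle hψ hz', fun hIS => ?_⟩
  rw [Metric.tendsto_atTop']
  intro ε hε
  have h3 := (hlow ε hε).and (hS ε hε)
  obtain ⟨N, hN⟩ := eventually_atTop.1 h3
  refine ⟨N, fun n hn => ?_⟩
  have h4 := hN n hn.le
  rw [Real.dist_eq, abs_lt]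
  constructor <;> linarith [h4.1, h4.2]

end Pool.Agent.Q188.DE
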